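import Pool.Agent.Helper37.Kr.KernB

/-!
# Project KRN (MP_6cbef8_nt): assembly of KernA and KernB
-/

set_option autoImplicit false
open Filter Topology

namespace Pool.Agent.Helper37.Kr

open Pool.Agent.Helper27.FM Matrix

variable (p : ℕ) [hp : Fact p.Prime]

variable {E : Type*} [NontriviallyNormedField E] [IsUltrametricDist E] [NormedAlgebra ℚ_[p] E]
  [FiniteDimensional ℚ_[p] E]
  {G : Type*} [Group G] [TopologicalSpace G] [IsTopologicalGroup G] [CompactSpace G]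
  {J : Type*} [Finite J] {n : J → ℕ}

theorem scalar_of_kernel {V : G →* GL (Fin 2) E} (hV : Continuous V)
    {ρ : Fin 0 → G →* GL (Fin 2) E}
    {T : ∀ j, G →* GL (Fin (n j)) ℚ_[p]} (hT : ∀ j, Continuous (T j)) {U : Subgroup G}
    (hU : IsOpen (U : Set G))
    (hs : ∀ x ∈ U, (∀ i j, ‖((V x : M2 E) - 1) i j‖ ≤ (p : ℝ)⁻¹ ^ 2) ∧
      ∀ k i j, ‖((T k x : Matrix (Fin (n k)) (Fin (n k)) ℚ_[p]) - 1) i j‖ ≤ (p : ℝ)⁻¹ ^ 2)
    (hker : ∀ g ∈ U, (∀ j, T j g = 1) → ∃ c : E, (V g : M2 E) = c • (1 : M2 E)) :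
    ∀ z ∈ ASp E p (RR V ρ (fun j => bc E (T j))) U, (∀ j, z.2.2 j = 0) →
      ∃ c : E, z.1 = c • (1 : M2 E) := by
  intro z hz h0
  obtain ⟨w, hw, hz1, hz2⟩ := kernB p (fun x hx => (hs x hx).2) z hz
  have hw0 : ∀ k j, (w k).2 j = 0 := by
    intro k j
    ext a b
    have h1 := hz2 j a b
    rw [h0 j] at h1
    have h2 : ∑ k, ((w k).2 j a b) • Module.finBasis ℚ_[p] E k = 0 := by
      rw [← (show (0 : Matrix (Fin (n j)) (Fin (n j)) E) a b = 0 from rfl), h1]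
      refine Finset.sum_congr rfl fun k _ => ?_
      rw [Algebra.smul_def, mul_comm]
    exact (Fintype.linearIndependent_iff.mp (Module.finBasis ℚ_[p] E).linearIndependent _ h2) k
  choose c hc using fun k => kernA p hV hT hU hs hker (w k) (hw k) (hw0 k)
  refine ⟨∑ k, Module.finBasis ℚ_[p] E k * c k, ?_⟩
  rw [hz1, Finset.sum_smul]
  refine Finset.sum_congr rfl fun k _ => ?_
  rw [hc k, smul_smul]

end Pool.Agent.Helper37.Kr
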