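import Pool.Agent.Helper37.Kr.SpanLog
import Pool.Agent.Helper27.FM.LogN
import Pool.Agent.Helper27.FM.Mat

/-!
# Project KRN (MP_6cbef8_nt), module KernA: elements of the `ℚ_p`-Lie algebra which vanish on all `T j`

`RQ V T g = (V g, (T j g)_j)` in the `ℚ_p`-algebra `M_2(E) × ∏ M_(n j)(ℚ_p)`.

PLAN. (1) `exists_log_eq` for `A = M2 E × (∀ j, Matrix (Fin (n j)) (Fin (n j)) ℚ_[p])` with the sup norm (local instances `matNormedRing`, `matNormedAlgebra`, `matUltra` from Helper27/FM/Log.lean,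
`matnNormedRing` ... from LogN.lean, and `Prod.normedRing`, `Pi.normedRing`, ...; `Fintype J` from `Finite J`; the topologies agree definitionally with the product topologies, see the proofs of `exists_log_mat`,
`exists_log_matn`): for `z` in `ASp ℚ_[p] p (RQ V T) U` there are `N`, `x ∈ U` with `ALog x (p^N • z)`. (`A` is finite dimensional over `ℚ_p`: `Module.Finite` instances for products, matrices, `Module.Finite.trans` or
`Module.Finite.matrix`.) (2) All `z.2 j = 0`: the logarithm of `T j x` is `0`, so `T j x = 1` (`log_inj`, or `log_norm` on the second component: `1` has logarithm `0`), so `V x` is scalar by `hker`, so the logarithm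
`p^N • z.1` is scalar (scalar matrices form a closed subspace, all `((p : ℚ_[p])^k)⁻¹ • ((V x)^(p^k) - 1)` are scalar), so `z.1` is scalar (divide by `p^N`).
-/

set_option autoImplicit false
open Filter Topology

namespace Pool.Agent.Helper37.Kr

open Pool.Agent.Helper27.FM Matrix

variable (p : ℕ) [hp : Fact p.Prime]

/-- the pair `(V, (T j)_j)` as a homomorphism into a `ℚ_p`-algebra -/
noncomputable def RQ {E : Type*} [Field E] {G : Type*} [Group G] {J : Type*} {n : J → ℕ}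
    (V : G →* GL (Fin 2) E) (T : ∀ j, G →* GL (Fin (n j)) ℚ_[p]) :
    G →* M2 E × (∀ j : J, Matrix (Fin (n j)) (Fin (n j)) ℚ_[p]) where
  toFun g := ((V g : M2 E), fun j => (T j g : Matrix (Fin (n j)) (Fin (n j)) ℚ_[p]))
  map_one' := by
    simp only [map_one, Units.val_one]
    rfl
  map_mul' a b := by
    simp only [map_mul, Units.val_mul]
    rfl

variable {E : Type*} [NontriviallyNormedField E] [IsUltrametricDist E] [NormedAlgebra ℚ_[p] E]
  [FiniteDimensional ℚ_[p] E]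
  {G : Type*} [Group G] [TopologicalSpace G] [IsTopologicalGroup G] [CompactSpace G]
  {J : Type*} [Finite J] {n : J → ℕ}

private theorem prodUltra (X Y : Type*) [PseudoMetricSpace X] [PseudoMetricSpace Y]
    [IsUltrametricDist X] [IsUltrametricDist Y] : IsUltrametricDist (X × Y) :=
  ⟨fun a b c => by
    rw [Prod.dist_eq, Prod.dist_eq, Prod.dist_eq]
    exact max_le
      ((IsUltrametricDist.dist_triangle_max a.1 b.1 c.1).trans
        (max_le_max (le_max_left _ _) (le_max_left _ _)))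
      ((IsUltrametricDist.dist_triangle_max a.2 b.2 c.2).trans
        (max_le_max (le_max_right _ _) (le_max_right _ _)))⟩

omit [IsUltrametricDist E] [FiniteDimensional ℚ_[p] E] in
/-- components of the logarithm -/
private theorem alog_comp {V : G →* GL (Fin 2) E}
    {T : ∀ j, G →* GL (Fin (n j)) ℚ_[p]} {x : G} {w : M2 E × (∀ j : J, Matrix (Fin (n j)) (Fin (n j)) ℚ_[p])}
    (h : ALog ℚ_[p] p (RQ p V T) x w) :
    Tendsto (fun m : ℕ => ((p : ℚ_[p]) ^ m)⁻¹ • ((V x : M2 E) ^ (p ^ m) - 1)) atTop (𝓝 w.1) ∧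
    ∀ j, Tendsto (fun m : ℕ => ((p : ℚ_[p]) ^ m)⁻¹ •
      ((T j x : Matrix (Fin (n j)) (Fin (n j)) ℚ_[p]) ^ (p ^ m) - 1)) atTop (𝓝 (w.2 j)) := by
  unfold ALog at h
  refine ⟨h.fst_nhds, fun j => ?_⟩
  exact (tendsto_pi_nhds.1 h.snd_nhds) j

private theorem eq_one_of_log {m : ℕ} {a : Matrix (Fin m) (Fin m) ℚ_[p]}
    (ha : ∀ i j, ‖(a - 1) i j‖ ≤ (p : ℝ)⁻¹ ^ 2)
    (h : Tendsto (fun k : ℕ => ((p : ℚ_[p]) ^ k)⁻¹ • (a ^ (p ^ k) - 1)) atTop (𝓝 0)) : a = 1 := by
  letI := matnNormedRing (E := ℚ_[p]) (m := m)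
  letI := matnNormedAlgebra (E := ℚ_[p]) (m := m) p
  haveI := matnUltra (E := ℚ_[p]) (m := m)
  have hp0 : 0 < (p : ℝ)⁻¹ := by
    have := hp.out.pos
    positivity
  have ha' : ‖a - 1‖ ≤ (p : ℝ)⁻¹ ^ 2 := by
    refine (Matrix.norm_le_iff (by positivity)).2 ?_
    exact ha
  have hb' : ‖(1 : Matrix (Fin m) (Fin m) ℚ_[p]) - 1‖ ≤ (p : ℝ)⁻¹ ^ 2 := by
    rw [sub_self]
    refine (Matrix.norm_le_iff (by positivity)).2 ?_
    intro i j
    rw [Matrix.zero_apply, norm_zero]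
    positivity
  have e1 : (fun k : ℕ => ((p : ℚ_[p]) ^ k)⁻¹ • (a ^ (p ^ k) - 1)) = logSeq p (a - 1) := by
    funext k
    rw [logSeq, add_sub_cancel]
  have e2 : Tendsto (logSeq p ((1 : Matrix (Fin m) (Fin m) ℚ_[p]) - 1)) atTop (𝓝 0) := by
    have e3 : logSeq p ((1 : Matrix (Fin m) (Fin m) ℚ_[p]) - 1) = fun _ => 0 := by
      funext k
      rw [logSeq, add_sub_cancel, one_pow, sub_self, smul_zero]
    rw [e3]
    exact tendsto_const_nhds
  rw [e1] at h
  exact sub_left_injective (log_inj p ha' hb' h e2)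

omit [IsUltrametricDist E] [FiniteDimensional ℚ_[p] E] in
private theorem scalar_of_log {a w : M2 E} {c : E} (ha : a = c • (1 : M2 E))
    (h : Tendsto (fun k : ℕ => ((p : ℚ_[p]) ^ k)⁻¹ • (a ^ (p ^ k) - 1)) atTop (𝓝 w)) :
    w = w 0 0 • (1 : M2 E) := by
  have hent : ∀ i j, Tendsto (fun k : ℕ => (((p : ℚ_[p]) ^ k)⁻¹ • (a ^ (p ^ k) - 1)) i j)
      atTop (𝓝 (w i j)) := by
    intro i j
    exact (tendsto_pi_nhds.1 ((tendsto_pi_nhds.1 h) i)) j
  have hpow : ∀ k : ℕ, ((p : ℚ_[p]) ^ k)⁻¹ • (a ^ (p ^ k) - 1) =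
      (((p : ℚ_[p]) ^ k)⁻¹ • (c ^ (p ^ k) - 1)) • (1 : M2 E) := by
    intro k
    rw [ha, smul_pow, one_pow]
    ext i j
    simp only [Matrix.smul_apply, Matrix.sub_apply, smul_eq_mul, smul_sub, sub_mul]
    by_cases hij : i = j
    · subst hij
      simp
    · simp [Matrix.one_apply_ne hij]
  have h01 : w 0 1 = 0 := by
    have h1 := hent 0 1
    simp only [hpow] at h1
    have h2 : (fun k : ℕ => ((((p : ℚ_[p]) ^ k)⁻¹ • (c ^ (p ^ k) - 1)) • (1 : M2 E)) 0 1) =
        fun _ => 0 := by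
      funext k
      simp
    rw [h2] at h1
    exact tendsto_nhds_unique h1 tendsto_const_nhds
  have h10 : w 1 0 = 0 := by
    have h1 := hent 1 0
    simp only [hpow] at h1
    have h2 : (fun k : ℕ => ((((p : ℚ_[p]) ^ k)⁻¹ • (c ^ (p ^ k) - 1)) • (1 : M2 E)) 1 0) =
        fun _ => 0 := by
      funext k
      simp
    rw [h2] at h1
    exact tendsto_nhds_unique h1 tendsto_const_nhds
  have h11 : w 1 1 = w 0 0 := by
    have h1 := hent 1 1
    have h3 := hent 0 0
    simp only [hpow] at h1 h3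
    have h2 : (fun k : ℕ => ((((p : ℚ_[p]) ^ k)⁻¹ • (c ^ (p ^ k) - 1)) • (1 : M2 E)) 1 1) =
        fun k : ℕ => ((((p : ℚ_[p]) ^ k)⁻¹ • (c ^ (p ^ k) - 1)) • (1 : M2 E)) 0 0 := by
      funext k
      simp
    rw [h2] at h1
    exact tendsto_nhds_unique h1 h3
  apply ext2
  · simp
  · simp [h01]
  · simp [h10]
  · simp [h11]

theorem kernA {V : G →* GL (Fin 2) E} (hV : Continuous V)
    {T : ∀ j, G →* GL (Fin (n j)) ℚ_[p]} (hT : ∀ j, Continuous (T j)) {U : Subgroup G}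
    (hU : IsOpen (U : Set G))
    (hs : ∀ x ∈ U, (∀ i j, ‖((V x : M2 E) - 1) i j‖ ≤ (p : ℝ)⁻¹ ^ 2) ∧
      ∀ k i j, ‖((T k x : Matrix (Fin (n k)) (Fin (n k)) ℚ_[p]) - 1) i j‖ ≤ (p : ℝ)⁻¹ ^ 2)
    (hker : ∀ g ∈ U, (∀ j, T j g = 1) → ∃ c : E, (V g : M2 E) = c • (1 : M2 E)) :
    ∀ z ∈ ASp ℚ_[p] p (RQ p V T) U, (∀ j, z.2 j = 0) → ∃ c : E, z.1 = c • (1 : M2 E) := by
  classical
  intro z hz hz0
  have hp0 : 0 < (p : ℝ)⁻¹ := by
    have := hp.out.pos
    positivity
  have hpne : (p : ℚ_[p]) ≠ 0 := by exact_mod_cast hp.out.ne_zero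
  have key : ∃ N : ℕ, ∃ x ∈ U, ALog ℚ_[p] p (RQ p V T) x ((p : ℚ_[p]) ^ N • z) := by
    letI := Fintype.ofFinite J
    letI i1 : NormedRing (M2 E) := matNormedRing (E := E)
    letI i2 : ∀ j, NormedRing (Matrix (Fin (n j)) (Fin (n j)) ℚ_[p]) :=
      fun j => matnNormedRing (E := ℚ_[p]) (m := n j)
    letI i3 : NormedAlgebra ℚ_[p] (M2 E) := matNormedAlgebra (E := E) p
    letI i4 : ∀ j, NormedAlgebra ℚ_[p] (Matrix (Fin (n j)) (Fin (n j)) ℚ_[p]) :=
      fun j => matnNormedAlgebra (E := ℚ_[p]) (m := n j) p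
    haveI i5 : IsUltrametricDist (M2 E) := matUltra (E := E)
    haveI i6 : ∀ j, IsUltrametricDist (Matrix (Fin (n j)) (Fin (n j)) ℚ_[p]) :=
      fun j => matnUltra (E := ℚ_[p]) (m := n j)
    haveI i7 : FiniteDimensional ℚ_[p] (M2 E) := inferInstance
    haveI i8 : IsUltrametricDist
        (M2 E × ((j : J) → Matrix (Fin (n j)) (Fin (n j)) ℚ_[p])) := prodUltra _ _
    have hc : Continuous (RQ p V T) := by
      refine Continuous.prodMk (Units.continuous_val.comp hV) ?_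
      exact continuous_pi fun j => Units.continuous_val.comp (hT j)
    have hone : ‖(1 : M2 E × (∀ j : J, Matrix (Fin (n j)) (Fin (n j)) ℚ_[p]))‖ ≤ 1 := by
      rw [Prod.norm_def]
      refine max_le ?_ ?_
      · refine (Matrix.norm_le_iff zero_le_one).2 fun i j => ?_
        by_cases h : i = j
        · subst h
          simp
        · simp [Matrix.one_apply_ne h]
      · refine (pi_norm_le_iff_of_nonneg zero_le_one).2 fun j => ?_
        refine (Matrix.norm_le_iff zero_le_one).2 fun i k => ?_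
        by_cases h : i = k
        · subst h
          simp
        · simp [Matrix.one_apply_ne h]
    have hsm : ∀ x ∈ U, ‖RQ p V T x - 1‖ ≤ (p : ℝ)⁻¹ ^ 2 := by
      intro x hx
      rw [Prod.norm_def]
      refine max_le ?_ ?_
      · refine (Matrix.norm_le_iff (by positivity)).2 fun i j => ?_
        exact (hs x hx).1 i j
      · refine (pi_norm_le_iff_of_nonneg (by positivity)).2 fun j => ?_
        refine (Matrix.norm_le_iff (by positivity)).2 fun i k => ?_
        exact (hs x hx).2 j i k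
    exact exists_log_eq p (R := RQ p V T) hc hU hone hsm hz
  obtain ⟨N, x, hx, hlog⟩ := key
  obtain ⟨hl1, hl2⟩ := alog_comp p hlog
  have hT1 : ∀ j, T j x = 1 := by
    intro j
    have h1 := hl2 j
    have h2 : ((p : ℚ_[p]) ^ N • z).2 j = 0 := by
      rw [Prod.smul_snd, Pi.smul_apply, hz0 j, smul_zero]
    rw [h2] at h1
    exact Units.ext (eq_one_of_log p (fun i k => (hs x hx).2 j i k) h1)
  obtain ⟨c, hc⟩ := hker x hx hT1
  have h3 := scalar_of_log p hc hl1
  have h4 : ((p : ℚ_[p]) ^ N • z).1 = (p : ℚ_[p]) ^ N • z.1 := rfl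
  rw [h4] at h3
  refine ⟨z.1 0 0, ?_⟩
  have h5 : (p : ℚ_[p]) ^ N • z.1 = (p : ℚ_[p]) ^ N • (z.1 0 0 • (1 : M2 E)) := by
    rw [h3]
    apply ext2 <;> simp [Matrix.smul_apply]
  have h6 : (p : ℚ_[p]) ^ N ≠ 0 := pow_ne_zero _ hpne
  exact smul_right_injective _ h6 h5

end Pool.Agent.Helper37.Kr
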