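import Pool.Agent.Helper37.Kr.KernA
import Pool.Agent.Helper27.FM.Main3

/-!
# Project KRN (MP_6cbef8_nt), module KernB: the `E`-span and the `ℚ_p`-span of the logarithms

`bc E T` is the base change of `T : G →* GL (Fin n) ℚ_[p]` to `E`.

PLAN. Span induction on `z ∈ ASp E p (RR V ρ (fun j => bc E (T j))) U`; `e = Module.finBasis ℚ_[p] E`.
Logarithms: `z` is the logarithm of `x ∈ U`; the logarithm `Y j` of `T j x` over `ℚ_p` exists (`exists_log_matn`, by `hs`), and `(z.1, Y)` is the logarithm of `RQ p V T x` (`ALog ℚ_[p]`; the scalars: `smul_p_eq`, `smul_p_eqn`), and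
`z.2.2 j = (Y j).map (algebraMap ℚ_[p] E)` (uniqueness of limits: `algebraMap` is continuous, `(bc E (T j) x)^(p^k) - 1` is the image of `(T j x)^(p^k) - 1`). Take `w k = ((e.repr 1) k) • (z.1, Y)`; `∑ k, (e.repr 1) k • e k = 1`.
Zero, sums: clear. Multiplication by `c ∈ E`: `w' l = ∑ k, (e.repr (c * e k)) l • w k`, as `∑ l, (e.repr (c * e k)) l • e l = c * e k`.
-/

set_option autoImplicit false
open Filter Topology

namespace Pool.Agent.Helper37.Kr

open Pool.Agent.Helper27.FM Matrix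

variable (p : ℕ) [hp : Fact p.Prime]

section

variable {p} (E : Type*) [Field E] [Algebra ℚ_[p] E] {G : Type*} [Group G] {n : ℕ}

/-- base change of a representation over `ℚ_p` to `E` -/
noncomputable def bc (T : G →* GL (Fin n) ℚ_[p]) : G →* GL (Fin n) E :=
  (Matrix.GeneralLinearGroup.map (algebraMap ℚ_[p] E)).comp T

end

variable {E : Type*} [NontriviallyNormedField E] [IsUltrametricDist E] [NormedAlgebra ℚ_[p] E]
  [FiniteDimensional ℚ_[p] E]
  {G : Type*} [Group G] {J : Type*} [Finite J] {n : J → ℕ}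

omit [IsUltrametricDist E] in
private lemma kb_one {X M : Type*} [AddCommGroup X] [Module ℚ_[p] X] [AddCommGroup M]
    [Module ℚ_[p] M] [Module E M] [IsScalarTower ℚ_[p] E M] (F : X →ₗ[ℚ_[p]] M) (x : X) :
    ∑ k, Module.finBasis ℚ_[p] E k • F ((Module.finBasis ℚ_[p] E).repr 1 k • x) = F x := by
  have h : ∀ k, Module.finBasis ℚ_[p] E k • F ((Module.finBasis ℚ_[p] E).repr 1 k • x) =
      ((Module.finBasis ℚ_[p] E).repr 1 k • Module.finBasis ℚ_[p] E k) • F x := by
    intro k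
    rw [map_smul, smul_assoc, smul_algebra_smul_comm]
  rw [Finset.sum_congr rfl fun k _ => h k, ← Finset.sum_smul, Module.Basis.sum_repr, one_smul]

omit [IsUltrametricDist E] in
private lemma kb_smul {X M : Type*} [AddCommGroup X] [Module ℚ_[p] X] [AddCommGroup M]
    [Module ℚ_[p] M] [Module E M] [IsScalarTower ℚ_[p] E M] (F : X →ₗ[ℚ_[p]] M) (c : E)
    (w : Fin (Module.finrank ℚ_[p] E) → X) :
    ∑ l, Module.finBasis ℚ_[p] E l • F (∑ k, (Module.finBasis ℚ_[p] E).repr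
      (c * Module.finBasis ℚ_[p] E k) l • w k) =
      c • ∑ k, Module.finBasis ℚ_[p] E k • F (w k) := by
  have h : ∀ l, Module.finBasis ℚ_[p] E l • F (∑ k, (Module.finBasis ℚ_[p] E).repr
      (c * Module.finBasis ℚ_[p] E k) l • w k) =
      ∑ k, ((Module.finBasis ℚ_[p] E).repr (c * Module.finBasis ℚ_[p] E k) l •
        Module.finBasis ℚ_[p] E l) • F (w k) := by
    intro l
    rw [map_sum, Finset.smul_sum]
    refine Finset.sum_congr rfl fun k _ => ?_
    rw [map_smul, smul_assoc, smul_algebra_smul_comm]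
  rw [Finset.sum_congr rfl fun l _ => h l, Finset.sum_comm, Finset.smul_sum]
  refine Finset.sum_congr rfl fun k _ => ?_
  rw [← Finset.sum_smul, Module.Basis.sum_repr, mul_smul]

/-- an entry of the second component, in `E` -/
private noncomputable def kbF (j : J) (a b : Fin (n j)) :
    M2 E × (∀ j : J, Matrix (Fin (n j)) (Fin (n j)) ℚ_[p]) →ₗ[ℚ_[p]] E where
  toFun w := algebraMap ℚ_[p] E (w.2 j a b)
  map_add' v w := by
    have h : algebraMap ℚ_[p] E (v.2 j a b + w.2 j a b) =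
        algebraMap ℚ_[p] E (v.2 j a b) + algebraMap ℚ_[p] E (w.2 j a b) := map_add _ _ _
    exact h
  map_smul' c w := by
    have h : algebraMap ℚ_[p] E (c * w.2 j a b) = c • algebraMap ℚ_[p] E (w.2 j a b) := by
      rw [map_mul, Algebra.smul_def]
    exact h

theorem kernB {V : G →* GL (Fin 2) E} {ρ : Fin 0 → G →* GL (Fin 2) E}
    {T : ∀ j, G →* GL (Fin (n j)) ℚ_[p]} {U : Subgroup G}
    (hs : ∀ x ∈ U, ∀ k i j,
      ‖((T k x : Matrix (Fin (n k)) (Fin (n k)) ℚ_[p]) - 1) i j‖ ≤ (p : ℝ)⁻¹ ^ 2) :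
    ∀ z ∈ ASp E p (RR V ρ (fun j => bc E (T j))) U,
      ∃ w : Fin (Module.finrank ℚ_[p] E) →
          M2 E × (∀ j : J, Matrix (Fin (n j)) (Fin (n j)) ℚ_[p]),
        (∀ k, w k ∈ ASp ℚ_[p] p (RQ p V T) U) ∧
        z.1 = ∑ k, Module.finBasis ℚ_[p] E k • (w k).1 ∧
        ∀ j a b, z.2.2 j a b = ∑ k, Module.finBasis ℚ_[p] E k *
          algebraMap ℚ_[p] E ((w k).2 j a b) := by
  intro z hz
  unfold ASp at hz
  induction hz using Submodule.span_induction with
  | mem z hz =>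
    obtain ⟨x, hx, hlog⟩ := hz
    choose Y hY using fun j => exists_log_matn p
      (T j x : Matrix (Fin (n j)) (Fin (n j)) ℚ_[p]) (hs x hx j)
    unfold ALog at hlog
    have h1 : Tendsto (fun m : ℕ => ((p : E) ^ m)⁻¹ • ((V x : M2 E) ^ (p ^ m) - 1)) atTop
        (𝓝 z.1) := hlog.fst_nhds
    have h2 : ∀ j, Tendsto (fun m : ℕ => ((p : E) ^ m)⁻¹ •
        ((bc E (T j) x : Matrix (Fin (n j)) (Fin (n j)) E) ^ (p ^ m) - 1)) atTop
        (𝓝 (z.2.2 j)) := fun j => tendsto_pi_nhds.1 hlog.snd_nhds.snd_nhds j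
    have h3 : ∀ j a b, z.2.2 j a b = algebraMap ℚ_[p] E (Y j a b) := by
      intro j a b
      have h4 : Tendsto (fun m : ℕ => (((p : E) ^ m)⁻¹ •
        ((bc E (T j) x : Matrix (Fin (n j)) (Fin (n j)) E) ^ (p ^ m) - 1)) a b) atTop
        (𝓝 (z.2.2 j a b)) := tendsto_pi_nhds.1 (tendsto_pi_nhds.1 (h2 j) a) b
      have h5 : Tendsto (fun m : ℕ => algebraMap ℚ_[p] E ((((p : ℚ_[p]) ^ m)⁻¹ •
        ((T j x : Matrix (Fin (n j)) (Fin (n j)) ℚ_[p]) ^ (p ^ m) - 1)) a b)) atTop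
        (𝓝 (algebraMap ℚ_[p] E (Y j a b))) :=
        ((continuous_algebraMap ℚ_[p] E).tendsto _).comp
          (tendsto_pi_nhds.1 (tendsto_pi_nhds.1 (hY j) a) b)
      refine tendsto_nhds_unique h4 (h5.congr fun m => ?_)
      have h6 : (bc E (T j) x : Matrix (Fin (n j)) (Fin (n j)) E) =
          (algebraMap ℚ_[p] E).mapMatrix (T j x : Matrix (Fin (n j)) (Fin (n j)) ℚ_[p]) := rfl
      rw [h6, ← map_pow, ← map_one (algebraMap ℚ_[p] E).mapMatrix, ← map_sub,
        Matrix.smul_apply, Matrix.smul_apply, smul_eq_mul, smul_eq_mul, map_mul, map_inv₀,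
        map_pow, map_natCast]
      rfl
    set z' : M2 E × (∀ j : J, Matrix (Fin (n j)) (Fin (n j)) ℚ_[p]) := (z.1, Y) with hz'
    have h7 : ALog ℚ_[p] p (RQ p V T) x z' := by
      unfold ALog
      have h8 : Tendsto (fun m : ℕ => ((p : ℚ_[p]) ^ m)⁻¹ • ((V x : M2 E) ^ (p ^ m) - 1)) atTop
          (𝓝 z.1) := h1.congr fun m => smul_p_eq p m _
      have h9 : Tendsto (fun m : ℕ => ((fun j => ((p : ℚ_[p]) ^ m)⁻¹ •
        ((T j x : Matrix (Fin (n j)) (Fin (n j)) ℚ_[p]) ^ (p ^ m) - 1)) :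
        ∀ j, Matrix (Fin (n j)) (Fin (n j)) ℚ_[p])) atTop (𝓝 Y) := tendsto_pi_nhds.2 hY
      exact h8.prodMk_nhds h9
    have h10 : z' ∈ ASp ℚ_[p] p (RQ p V T) U := Submodule.subset_span ⟨x, hx, h7⟩
    refine ⟨fun k => (Module.finBasis ℚ_[p] E).repr 1 k • z', ?_, ?_, ?_⟩
    · intro k
      exact Submodule.smul_mem _ _ h10
    · exact (kb_one p (LinearMap.fst ℚ_[p] (M2 E)
        (∀ j : J, Matrix (Fin (n j)) (Fin (n j)) ℚ_[p])) z').symm
    · intro j a b
      rw [h3]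
      exact (kb_one p (kbF p (E := E) j a b) z').symm
  | zero =>
    refine ⟨fun _ => 0, fun _ => Submodule.zero_mem _, ?_, ?_⟩
    · simp
    · intro j a b
      simp
  | add z z' _ _ ih ih' =>
    obtain ⟨w, hw, h1, h2⟩ := ih
    obtain ⟨w', hw', h1', h2'⟩ := ih'
    refine ⟨fun k => w k + w' k, fun k => Submodule.add_mem _ (hw k) (hw' k), ?_, ?_⟩
    · rw [Prod.fst_add, h1, h1', ← Finset.sum_add_distrib]
      refine Finset.sum_congr rfl fun k _ => ?_
      rw [Prod.fst_add, smul_add]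
    · intro j a b
      have h3 : (z + z').2.2 j a b = z.2.2 j a b + z'.2.2 j a b := rfl
      rw [h3, h2, h2', ← Finset.sum_add_distrib]
      refine Finset.sum_congr rfl fun k _ => ?_
      have h4 : (w k + w' k).2 j a b = (w k).2 j a b + (w' k).2 j a b := rfl
      rw [h4, map_add, mul_add]
  | smul c z _ ih =>
    obtain ⟨w, hw, h1, h2⟩ := ih
    refine ⟨fun l => ∑ k, (Module.finBasis ℚ_[p] E).repr
      (c * Module.finBasis ℚ_[p] E k) l • w k, ?_, ?_, ?_⟩
    · intro l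
      exact Submodule.sum_mem _ fun k _ => Submodule.smul_mem _ _ (hw k)
    · rw [Prod.smul_fst, h1]
      exact (kb_smul p (LinearMap.fst ℚ_[p] (M2 E)
        (∀ j : J, Matrix (Fin (n j)) (Fin (n j)) ℚ_[p])) c w).symm
    · intro j a b
      have h3 : (c • z).2.2 j a b = c * z.2.2 j a b := rfl
      rw [h3, h2]
      exact (kb_smul p (kbF p (E := E) j a b) c w).symm

end Pool.Agent.Helper37.Kr
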