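import Pool.Agent.Helper37.Kr.Lam

/-!
# Project KRN (MP_6cbef8_nt), module Fill: every element of `Lam` is a rescaled logarithm

PLAN. (1) `Lam` is compact (closed and bounded, `A` is proper: `FiniteDimensional.proper ℚ_[p] A`). It is covered by the open balls of radius `p^(-3)` around the `v'` with `Pre k v'`
(`Lam` is in the closure); finitely many suffice, let `k₁` be the maximum of their levels; by `pre_mono`: for all `m ≥ k₁`, `v ∈ Lam` there is `v'` with `Pre m v'`, `‖v - v'‖ ≤ p^(-3)`.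
(2) By induction on `s`: for all `m ≥ k₁`, `v ∈ Lam` there are `x` and `v'` with `Sm m x`, `ALog x (p^m • v')`, `‖v - v'‖ ≤ p^(-(s+3))`. Step: `v' ∈ Lam`, so `v - v' ∈ Lam` (`lam_add`, `lam_neg`), and
`w = p^(-(s+1)) • (v - v') ∈ Lam` (`lam_sat` `s + 1` times: `‖p^(-i) • (v - v')‖ ≤ p^(-3)` for `i ≤ s`). By (1) at level `m + s + 1`: `y`, `w'` with `Sm (m+s+1) y`, `ALog y (p^(m+s+1) • w')`,
`‖w - w'‖ ≤ p^(-3)`. Let `Z` be the logarithm of `x y`: `‖Z - p^m • v' - p^(m+s+1) • w'‖ ≤ p^(-(m+1)) ‖R y - 1‖ ≤ p^(-(m+1)) p^(-(m+s+3))` (`log_mul`), so `v'' = p^(-m) • Z` satisfies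
`‖v - v''‖ ≤ max (p^(-(s+1)) ‖w - w'‖) (p^m p^(-(m+1)) p^(-(m+s+3))) ≤ p^(-(s+4))`. `Sm m (x y)` as `Sm (m+s+1) y → Sm m y`.
(3) Limit: fix `m ≥ k₁`, `v ∈ Lam`. The sets `C_s = {x ∈ U | Sm m x ∧ ∃ X, ALog x X ∧ ‖p^m • v - X‖ ≤ p^(-(m+s+3))}` are nonempty, decreasing and closed in the compact group `G`
(`x ↦ X` is continuous on `U` since `‖X - Y‖ = ‖R x - R y‖` by `log_norm`, `U` is closed: `Subgroup.isClosed_of_isOpen`); a point of the intersection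
(`IsCompact.nonempty_iInter_of_sequence_nonempty_isCompact_isClosed`) has logarithm `p^m • v`. (Or: take a cluster point of the sequence `x_s`, `IsCompact.tendsto_subseq` is not available in general;
use the filter version `exists_clusterPt_of_compactSpace`.)
-/

set_option autoImplicit false
open Filter Topology

namespace Pool.Agent.Helper37.Kr

open Pool.Agent.Helper27.FM

variable (p : ℕ) [hp : Fact p.Prime] {A : Type*} [NormedRing A] [IsUltrametricDist A]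
  [NormedAlgebra ℚ_[p] A] [FiniteDimensional ℚ_[p] A]
  {G : Type*} [Group G] {R : G →* A} {U : Subgroup G}

include hp in
private theorem fill_q0 : 0 < (p : ℝ)⁻¹ := by
  have := hp.out.pos
  positivity

include hp in
private theorem fill_q1 : (p : ℝ)⁻¹ ≤ 1 := by
  apply inv_le_one_of_one_le₀
  exact_mod_cast hp.out.one_lt.le

private theorem fill_norm (k : ℕ) (v : A) : ‖(p : ℚ_[p]) ^ k • v‖ = (p : ℝ)⁻¹ ^ k * ‖v‖ := by
  rw [norm_smul, norm_pow, Padic.norm_p]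

private theorem fill_p0 (k : ℕ) : (p : ℚ_[p]) ^ k ≠ 0 :=
  pow_ne_zero _ (Nat.cast_ne_zero.2 hp.out.ne_zero)

private theorem fill_first (hs : ∀ x ∈ U, ‖R x - 1‖ ≤ (p : ℝ)⁻¹ ^ 2) :
    ∃ k₁ : ℕ, ∀ m : ℕ, k₁ ≤ m → ∀ v ∈ Lam p R U, ∃ v', Pre p R U m v' ∧
      ‖v - v'‖ ≤ (p : ℝ)⁻¹ ^ 3 := by
  have : ProperSpace A := FiniteDimensional.proper ℚ_[p] A
  have hc : IsCompact (Lam p R U) := by
    refine Metric.isCompact_of_isClosed_isBounded isClosed_closure ?_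
    rw [isBounded_iff_forall_norm_le]
    exact ⟨_, fun v hv => lam_norm p hs hv⟩
  obtain ⟨k₁, hk⟩ := hc.elim_directed_cover
    (fun k : ℕ => ⋃ v' ∈ {v' | Pre p R U k v'}, Metric.ball v' ((p : ℝ)⁻¹ ^ 3))
    (fun k => isOpen_biUnion fun _ _ => Metric.isOpen_ball) (by
      intro v hv
      obtain ⟨v', ⟨k, hk⟩, hd⟩ := Metric.mem_closure_iff.1 hv _ (pow_pos (fill_q0 p) 3)
      exact Set.mem_iUnion.2 ⟨k, Set.mem_biUnion (show v' ∈ {v' | Pre p R U k v'} from hk) hd⟩) (by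
      refine directed_of_isDirected_le fun i j hij => ?_
      refine Set.biUnion_subset_biUnion_left ?_
      intro v' hv'
      exact pre_mono p hs hij hv')
  refine ⟨k₁, fun m hm v hv => ?_⟩
  obtain ⟨v', hv', hd⟩ := Set.mem_iUnion₂.1 (hk hv)
  refine ⟨v', pre_mono p hs hm hv', ?_⟩
  rw [← dist_eq_norm]
  exact (Metric.mem_ball.1 hd).le

private theorem fill_div (hs : ∀ x ∈ U, ‖R x - 1‖ ≤ (p : ℝ)⁻¹ ^ 2) (s : ℕ) {d : A}
    (hd : d ∈ Lam p R U) (hn : ‖d‖ ≤ (p : ℝ)⁻¹ ^ (s + 3)) (i : ℕ) (hi : i ≤ s + 1) :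
    ((p : ℚ_[p]) ^ i)⁻¹ • d ∈ Lam p R U := by
  induction i with
  | zero => rwa [pow_zero, inv_one, one_smul]
  | succ i ih =>
    have h1 := ih (by omega)
    have e : ((p : ℚ_[p]) ^ (i + 1))⁻¹ • d = (p : ℚ_[p])⁻¹ • (((p : ℚ_[p]) ^ i)⁻¹ • d) := by
      rw [smul_smul, ← mul_inv, ← pow_succ']
    rw [e]
    refine lam_sat p hs h1 ?_
    have h2 : (p : ℝ)⁻¹ ^ i * ‖((p : ℚ_[p]) ^ i)⁻¹ • d‖ = ‖d‖ := by
      rw [← fill_norm, smul_smul, mul_inv_cancel₀ (fill_p0 p i), one_smul]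
    have h3 : (p : ℝ)⁻¹ ^ (s + 3) ≤ (p : ℝ)⁻¹ ^ i * (p : ℝ)⁻¹ ^ 3 := by
      rw [← pow_add]
      exact pow_le_pow_of_le_one (fill_q0 p).le (fill_q1 p) (by omega)
    exact le_of_mul_le_mul_left (h2.le.trans (hn.trans h3)) (pow_pos (fill_q0 p) i)

theorem fill_approx (h1 : ‖(1 : A)‖ ≤ 1) (hs : ∀ x ∈ U, ‖R x - 1‖ ≤ (p : ℝ)⁻¹ ^ 2) :
    ∃ k₁ : ℕ, ∀ (s m : ℕ), k₁ ≤ m → ∀ v ∈ Lam p R U, ∃ (x : G) (v' : A), Sm p R U m x ∧
      ALog ℚ_[p] p R x ((p : ℚ_[p]) ^ m • v') ∧ ‖v - v'‖ ≤ (p : ℝ)⁻¹ ^ (s + 3) := by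
  obtain ⟨k₁, hk⟩ := fill_first p hs
  have hq0 := fill_q0 p
  have hq1 := fill_q1 p
  refine ⟨k₁, fun s => ?_⟩
  induction s with
  | zero =>
    intro m hm v hv
    obtain ⟨v', ⟨x, hx, hX⟩, hd⟩ := hk m hm v hv
    exact ⟨x, v', hx, hX, by rwa [zero_add]⟩
  | succ s ih =>
    intro m hm v hv
    obtain ⟨x, v', hx, hX, hd⟩ := ih m hm v hv
    have hv' : v' ∈ Lam p R U := subset_closure ⟨m, x, hx, hX⟩
    have hdL : v - v' ∈ Lam p R U := by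
      rw [sub_eq_add_neg]
      exact lam_add p h1 hs hv (lam_neg p h1 hs hv')
    have hw := fill_div p hs s hdL hd (s + 1) le_rfl
    set w : A := ((p : ℚ_[p]) ^ (s + 1))⁻¹ • (v - v') with hwdef
    obtain ⟨w', ⟨y, hy, hY⟩, hdw⟩ := hk (m + s + 1) (by omega) w hw
    have hym : Sm p R U m y :=
      ⟨hy.1, hy.2.trans (pow_le_pow_of_le_one hq0.le hq1 (by omega))⟩
    have hxy := sm_mul p h1 hx hym
    obtain ⟨Z, hZ⟩ := exists_alog p hs hxy.1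
    have hZ1 := log_mul p hx.2 hym.2 hX hY hZ
    refine ⟨x * y, ((p : ℚ_[p]) ^ m)⁻¹ • Z, hxy, ?_, ?_⟩
    · rwa [smul_smul, mul_inv_cancel₀ (fill_p0 p m), one_smul]
    · have hfst : ‖v - v' - (p : ℚ_[p]) ^ (s + 1) • w'‖ ≤ (p : ℝ)⁻¹ ^ (s + 1 + 3) := by
        have e : v - v' - (p : ℚ_[p]) ^ (s + 1) • w' = (p : ℚ_[p]) ^ (s + 1) • (w - w') := by
          rw [smul_sub, hwdef, smul_smul, mul_inv_cancel₀ (fill_p0 p (s + 1)), one_smul]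
        rw [e, fill_norm, pow_add _ (s + 1) 3]
        exact mul_le_mul_of_nonneg_left hdw (pow_nonneg hq0.le _)
      have hsnd : ‖((p : ℚ_[p]) ^ m)⁻¹ • Z - v' - (p : ℚ_[p]) ^ (s + 1) • w'‖ ≤
          (p : ℝ)⁻¹ ^ (s + 1 + 3) := by
        have e : (p : ℝ)⁻¹ ^ m * ‖((p : ℚ_[p]) ^ m)⁻¹ • Z - v' - (p : ℚ_[p]) ^ (s + 1) • w'‖ =
            ‖Z - (p : ℚ_[p]) ^ m • v' - (p : ℚ_[p]) ^ (m + s + 1) • w'‖ := by
          rw [← fill_norm, smul_sub, smul_sub, smul_smul, mul_inv_cancel₀ (fill_p0 p m),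
            one_smul, smul_smul, ← pow_add, ← add_assoc]
        have e2 : (p : ℝ)⁻¹ ^ (m + 1) * ‖R y - 1‖ ≤ (p : ℝ)⁻¹ ^ m * (p : ℝ)⁻¹ ^ (s + 1 + 3) := by
          calc (p : ℝ)⁻¹ ^ (m + 1) * ‖R y - 1‖
              ≤ (p : ℝ)⁻¹ ^ (m + 1) * (p : ℝ)⁻¹ ^ (m + s + 1 + 2) :=
                mul_le_mul_of_nonneg_left hy.2 (pow_nonneg hq0.le _)
            _ = (p : ℝ)⁻¹ ^ (m + 1 + (m + s + 1 + 2)) := by rw [← pow_add]
            _ ≤ (p : ℝ)⁻¹ ^ (m + (s + 1 + 3)) :=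
                pow_le_pow_of_le_one hq0.le hq1 (by omega)
            _ = (p : ℝ)⁻¹ ^ m * (p : ℝ)⁻¹ ^ (s + 1 + 3) := by rw [pow_add]
        exact le_of_mul_le_mul_left (e.le.trans (hZ1.trans e2)) (pow_pos hq0 m)
      have e3 : v - ((p : ℚ_[p]) ^ m)⁻¹ • Z = (v - v' - (p : ℚ_[p]) ^ (s + 1) • w') +
          -(((p : ℚ_[p]) ^ m)⁻¹ • Z - v' - (p : ℚ_[p]) ^ (s + 1) • w') := by abel
      rw [e3]
      refine (IsUltrametricDist.norm_add_le_max _ _).trans (max_le hfst ?_)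
      rwa [norm_neg]

theorem fill_lam [TopologicalSpace G] [IsTopologicalGroup G] [CompactSpace G] (hR : Continuous R)
    (hU : IsOpen (U : Set G)) (h1 : ‖(1 : A)‖ ≤ 1) (hs : ∀ x ∈ U, ‖R x - 1‖ ≤ (p : ℝ)⁻¹ ^ 2) :
    ∃ m : ℕ, ∀ v ∈ Lam p R U, Pre p R U m v := by
  obtain ⟨m, hm⟩ := fill_approx p h1 hs
  have hq0 := fill_q0 p
  have hq1 := fill_q1 p
  refine ⟨m, fun v hv => ?_⟩
  set C : ℕ → Set G := fun s => {x | x ∈ U ∧ ‖R x - 1‖ ≤ (p : ℝ)⁻¹ ^ (m + 2) ∧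
    ∃ X, ALog ℚ_[p] p R x X ∧ ‖(p : ℚ_[p]) ^ m • v - X‖ ≤ (p : ℝ)⁻¹ ^ (m + s + 3)} with hC
  have hne : ∀ s, (C s).Nonempty := by
    intro s
    obtain ⟨x, v', hx, hX, hd⟩ := hm s m le_rfl v hv
    refine ⟨x, hx.1, hx.2, _, hX, ?_⟩
    rw [← smul_sub, fill_norm, add_assoc, pow_add]
    exact mul_le_mul_of_nonneg_left hd (pow_nonneg hq0.le _)
  have hdec : ∀ s, C (s + 1) ⊆ C s := by
    rintro s x ⟨hx, hx2, X, hX, hd⟩
    exact ⟨hx, hx2, X, hX, hd.trans (pow_le_pow_of_le_one hq0.le hq1 (by omega))⟩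
  have hcl : ∀ s, IsClosed (C s) := by
    intro s
    refine isClosed_of_closure_subset fun x hx => ?_
    have hxU : x ∈ U := by
      have h2 : closure (C s) ⊆ (U : Set G) :=
        closure_minimal (fun y hy => hy.1) (Subgroup.isClosed_of_isOpen U hU)
      exact h2 hx
    have hx2 : ‖R x - 1‖ ≤ (p : ℝ)⁻¹ ^ (m + 2) := by
      have h2 : closure (C s) ⊆ {y | ‖R y - 1‖ ≤ (p : ℝ)⁻¹ ^ (m + 2)} :=
        closure_minimal (fun y hy => hy.2.1)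
          (isClosed_le ((hR.sub continuous_const).norm) continuous_const)
      exact h2 hx
    obtain ⟨X, hX⟩ := exists_alog p hs hxU
    refine ⟨hxU, hx2, X, hX, ?_⟩
    have h3 : {y | ‖R x - R y‖ < (p : ℝ)⁻¹ ^ (m + s + 3)} ∈ 𝓝 x := by
      refine IsOpen.mem_nhds (isOpen_lt ((continuous_const.sub hR).norm) continuous_const) ?_
      show ‖R x - R x‖ < _
      rw [sub_self, norm_zero]
      positivity
    obtain ⟨y, hy, hyU, _, Y, hY, hd⟩ := mem_closure_iff_nhds.1 hx _ h3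
    have h4 : ‖X - Y‖ = ‖R x - R y‖ := log_norm p (hs x hxU) (hs y hyU) hX hY
    have e : (p : ℚ_[p]) ^ m • v - X = ((p : ℚ_[p]) ^ m • v - Y) + -(X - Y) := by abel
    rw [e]
    refine (IsUltrametricDist.norm_add_le_max _ _).trans (max_le hd ?_)
    rw [norm_neg, h4]
    exact (show ‖R x - R y‖ < _ from hy).le
  obtain ⟨x, hx⟩ := IsCompact.nonempty_iInter_of_sequence_nonempty_isCompact_isClosed C hdec hne
    (hcl 0).isCompact hcl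
  rw [Set.mem_iInter] at hx
  obtain ⟨hxU, hx2, X, hX, _⟩ := hx 0
  refine ⟨x, ⟨hxU, hx2⟩, ?_⟩
  have h5 : ∀ s : ℕ, ‖(p : ℚ_[p]) ^ m • v - X‖ ≤ (p : ℝ)⁻¹ ^ (m + s + 3) := by
    intro s
    obtain ⟨_, _, Y, hY, hd⟩ := hx s
    have h6 : Y = X := tendsto_nhds_unique hY hX
    rwa [h6] at hd
  have h6 : ‖(p : ℚ_[p]) ^ m • v - X‖ ≤ 0 := by
    have hlt : (p : ℝ)⁻¹ < 1 := by
      apply inv_lt_one_of_one_lt₀
      exact_mod_cast hp.out.one_lt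
    have h7 : Tendsto (fun s : ℕ => (p : ℝ)⁻¹ ^ s) atTop (𝓝 0) :=
      tendsto_pow_atTop_nhds_zero_of_lt_one hq0.le hlt
    refine ge_of_tendsto' h7 fun s => (h5 s).trans ?_
    exact pow_le_pow_of_le_one hq0.le hq1 (by omega)
  have h7 : (p : ℚ_[p]) ^ m • v = X := sub_eq_zero.1 (norm_le_zero_iff.1 h6)
  rw [h7]
  exact hX

end Pool.Agent.Helper37.Kr
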