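import Pool.Agent.Helper37.Kr.LogEst

/-!
# Project KRN (MP_6cbef8_nt), module Lam: the closed group of rescaled logarithms

`Sm k x`: `x ∈ U` and `‖R x - 1‖ ≤ p^(-(k+2))`. `Pre k v`: `p^k • v` is the logarithm of some `x` with `Sm k x`. `Lam` = closure of the set of all `v` with `Pre k v` for some `k`.

PLAN. Basic facts: `Sm k` is closed under products and inverses (`R (x y) - 1 = (R x - 1) R y + (R y - 1)`, `‖R y‖ ≤ 1` as `‖1‖ ≤ 1`; `R x⁻¹ - 1 = - R x⁻¹ (R x - 1)`), and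
`Sm k x → Sm (k+1) (x^p)` (`small_pow_iter` with `k = 1`, `y = 0`). `Pre k v → Pre (k+1) v` (`log_pow`), so `Pre k v → Pre m v` for `m ≥ k`. Every `x` in `U` has a logarithm
(`exists_log`, `CompleteSpace A`: `FiniteDimensional.complete ℚ_[p] A`).
`lam_norm`: `‖p^k • v‖ = ‖R x - 1‖` (`log_norm` with `h = 1`, logarithm `0`), so `‖v‖ ≤ p^(-2)`; closed condition.
`lam_add`: for `v`, `w` with `Pre k v`, `Pre k w` and every `m ≥ k`: `Pre m v`, `Pre m w` with `x, y`; the logarithm `Z` of `x y` satisfies `‖p^(-m) Z - v - w‖ ≤ p^m p^(-(m+1)) p^(-(m+2)) → 0` (`log_mul`), and `Pre m (p^(-m) Z)`; so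
`v + w ∈ Lam`. Then extend to closures (`map_mem_closure₂`, continuity of addition, `Lam` closed). `lam_neg`: `log_inv`.
`lam_sat`: if `v ∈ Lam`, `‖v‖ ≤ p^(-3)`: take `v'` with `Pre k v'` and `‖v - v'‖ ≤ ε ≤ p^(-3)`; then `‖v'‖ ≤ p^(-3)`, `‖R x - 1‖ = ‖p^k • v'‖ ≤ p^(-(k+3))`, so `Pre (k+1) (p⁻¹ • v')`, and `‖p⁻¹ • v - p⁻¹ • v'‖ = p ‖v - v'‖` is small.
-/

set_option autoImplicit false
open Filter Topology

namespace Pool.Agent.Helper37.Kr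

open Pool.Agent.Helper27.FM

variable (p : ℕ) [hp : Fact p.Prime] {A : Type*} [NormedRing A] [IsUltrametricDist A]
  [NormedAlgebra ℚ_[p] A] {G : Type*} [Group G] (R : G →* A) (U : Subgroup G)

/-- small elements -/
def Sm (k : ℕ) (x : G) : Prop := x ∈ U ∧ ‖R x - 1‖ ≤ (p : ℝ)⁻¹ ^ (k + 2)

/-- rescaled logarithms of small elements -/
def Pre (k : ℕ) (v : A) : Prop := ∃ x, Sm p R U k x ∧ ALog ℚ_[p] p R x ((p : ℚ_[p]) ^ k • v)

/-- the closure of the rescaled logarithms -/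
def Lam : Set A := closure {v | ∃ k, Pre p R U k v}

variable {R U} [FiniteDimensional ℚ_[p] A] (h1 : ‖(1 : A)‖ ≤ 1)
  (hs : ∀ x ∈ U, ‖R x - 1‖ ≤ (p : ℝ)⁻¹ ^ 2)

include hp in
omit [FiniteDimensional ℚ_[p] A] [IsUltrametricDist A] [NormedAlgebra ℚ_[p] A] in
private theorem q_pos : 0 < (p : ℝ)⁻¹ := by
  have := hp.out.pos
  positivity

include hp in
omit [FiniteDimensional ℚ_[p] A] [IsUltrametricDist A] [NormedAlgebra ℚ_[p] A] in
private theorem q_lt : (p : ℝ)⁻¹ < 1 := by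
  apply inv_lt_one_of_one_lt₀
  exact_mod_cast hp.out.one_lt

include hp in
private theorem q_pow_le (k : ℕ) : (p : ℝ)⁻¹ ^ k ≤ 1 :=
  pow_le_one₀ (q_pos p).le (q_lt p).le

include hp in
private theorem q_pow_anti {k m : ℕ} (h : k ≤ m) : (p : ℝ)⁻¹ ^ m ≤ (p : ℝ)⁻¹ ^ k :=
  pow_le_pow_of_le_one (q_pos p).le (q_lt p).le h

private theorem norm_pk (k : ℕ) (v : A) : ‖(p : ℚ_[p]) ^ k • v‖ = (p : ℝ)⁻¹ ^ k * ‖v‖ := by
  rw [norm_smul, norm_pow, Padic.norm_p]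

private theorem alog_one : ALog ℚ_[p] p R 1 0 := by
  unfold ALog
  simp only [map_one, one_pow, sub_self, smul_zero]
  exact tendsto_const_nhds

private theorem pre_norm {k : ℕ} {x : G} {v : A} (hx : ‖R x - 1‖ ≤ (p : ℝ)⁻¹ ^ 2)
    (hv : ALog ℚ_[p] p R x ((p : ℚ_[p]) ^ k • v)) : (p : ℝ)⁻¹ ^ k * ‖v‖ = ‖R x - 1‖ := by
  have h2 := log_norm p (R := R) (g := x) (h := 1) hx
    (by rw [map_one, sub_self, norm_zero]; exact pow_nonneg (q_pos p).le 2) hv (alog_one p)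
  rw [sub_zero, map_one, norm_pk] at h2
  exact h2

include h1 in
theorem sm_mul {k : ℕ} {x y : G} (hx : Sm p R U k x) (hy : Sm p R U k y) : Sm p R U k (x * y) := by
  refine ⟨U.mul_mem hx.1 hy.1, ?_⟩
  have e : R (x * y) - 1 = (R x - 1) * (R y - 1) + ((R x - 1) + (R y - 1)) := by
    rw [map_mul]; noncomm_ring
  have h2 : ‖(R x - 1) * (R y - 1)‖ ≤ (p : ℝ)⁻¹ ^ (k + 2) := by
    calc ‖(R x - 1) * (R y - 1)‖ ≤ ‖R x - 1‖ * ‖R y - 1‖ := norm_mul_le _ _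
      _ ≤ (p : ℝ)⁻¹ ^ (k + 2) * 1 :=
          mul_le_mul hx.2 (hy.2.trans (q_pow_le p _)) (norm_nonneg _)
            (pow_nonneg (q_pos p).le _)
      _ = _ := mul_one _
  rw [e]
  exact (norm_add_le_max' _ _).trans (max_le h2 ((norm_add_le_max' _ _).trans (max_le hx.2 hy.2)))

include h1 hs in
theorem sm_inv {k : ℕ} {x : G} (hx : Sm p R U k x) : Sm p R U k x⁻¹ := by
  have hx' : x⁻¹ ∈ U := U.inv_mem hx.1
  refine ⟨hx', ?_⟩
  have e : R x⁻¹ - 1 = -(R x⁻¹ * (R x - 1)) := by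
    rw [mul_sub, R_inv_mul, mul_one]; abel
  have h2 : ‖R x⁻¹‖ ≤ 1 := by
    have e2 : R x⁻¹ = (R x⁻¹ - 1) + 1 := by abel
    rw [e2]
    exact (norm_add_le_max' _ _).trans (max_le ((hs _ hx').trans (q_pow_le p _)) h1)
  rw [e, norm_neg]
  calc ‖R x⁻¹ * (R x - 1)‖ ≤ ‖R x⁻¹‖ * ‖R x - 1‖ := norm_mul_le _ _
    _ ≤ 1 * (p : ℝ)⁻¹ ^ (k + 2) := mul_le_mul h2 hx.2 (norm_nonneg _) zero_le_one
    _ = _ := one_mul _

include hs in
private theorem pre_succ {k : ℕ} {v : A} (hv : Pre p R U k v) : Pre p R U (k + 1) v := by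
  obtain ⟨x, hx, hX⟩ := hv
  refine ⟨x ^ p, ⟨U.pow_mem hx.1 p, ?_⟩, ?_⟩
  · have h2 := small_pow (A := A) p (x := R x - 1) (y := 0) (hs x hx.1)
      (by rw [norm_zero]; exact pow_nonneg (q_pos p).le 2)
    rw [add_sub_cancel, add_zero, one_pow, sub_zero, ← map_pow] at h2
    rw [h2, show k + 1 + 2 = (k + 2) + 1 from rfl, pow_succ' _ (k + 2)]
    exact mul_le_mul_of_nonneg_left hx.2 (q_pos p).le
  · have h2 := log_pow p hX
    rw [smul_smul, ← pow_succ'] at h2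
    exact h2

include hs in
theorem pre_mono {k m : ℕ} (hkm : k ≤ m) {v : A} (hv : Pre p R U k v) : Pre p R U m v := by
  induction m, hkm using Nat.le_induction with
  | base => exact hv
  | succ n _ ih => exact pre_succ p hs ih

include hs in
theorem exists_alog {x : G} (hx : x ∈ U) : ∃ X, ALog ℚ_[p] p R x X := by
  haveI : CompleteSpace A := FiniteDimensional.complete ℚ_[p] A
  obtain ⟨X, hX⟩ := exists_log p (hs x hx)
  exact ⟨X, (alog_iff p).2 hX⟩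

include hs in
theorem lam_norm {v : A} (hv : v ∈ Lam p R U) : ‖v‖ ≤ (p : ℝ)⁻¹ ^ 2 := by
  have h2 : Lam p R U ⊆ {v : A | ‖v‖ ≤ (p : ℝ)⁻¹ ^ 2} := by
    apply closure_minimal
    · rintro w ⟨k, x, hx, hX⟩
      have h3 := pre_norm p (hs x hx.1) hX
      have h4 := hx.2
      rw [← h3, pow_add] at h4
      exact le_of_mul_le_mul_left h4 (pow_pos (q_pos p) k)
    · exact isClosed_le continuous_norm continuous_const
  exact h2 hv

private theorem norm_pk_inv (k : ℕ) (v : A) :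
    ‖((p : ℚ_[p]) ^ k)⁻¹ • v‖ = ((p : ℝ)⁻¹ ^ k)⁻¹ * ‖v‖ := by
  rw [norm_smul, norm_inv, norm_pow, Padic.norm_p]

private theorem p_ne : (p : ℚ_[p]) ≠ 0 := by
  exact_mod_cast hp.out.ne_zero

include h1 hs in
private theorem add_pre {k k' : ℕ} {v w : A} (hv : Pre p R U k v) (hw : Pre p R U k' w) :
    v + w ∈ Lam p R U := by
  unfold Lam
  rw [Metric.mem_closure_iff]
  intro ε hε
  obtain ⟨m0, hm0⟩ := exists_pow_lt_of_lt_one hε (q_lt p)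
  set m := max m0 (max k k') with hm
  obtain ⟨x, hx, hX⟩ := pre_mono p hs (show k ≤ m by omega) hv
  obtain ⟨y, hy, hY⟩ := pre_mono p hs (show k' ≤ m by omega) hw
  have hxy := sm_mul p h1 hx hy
  obtain ⟨Z, hZ⟩ := exists_alog p hs hxy.1
  have hpm : (p : ℚ_[p]) ^ m ≠ 0 := pow_ne_zero _ (p_ne p)
  refine ⟨((p : ℚ_[p]) ^ m)⁻¹ • Z, ⟨m, x * y, hxy, ?_⟩, ?_⟩
  · rw [smul_smul, mul_inv_cancel₀ hpm, one_smul]
    exact hZ
  · have h2 := log_mul p hx.2 hy.2 hX hY hZ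
    have e : v + w - ((p : ℚ_[p]) ^ m)⁻¹ • Z =
        -(((p : ℚ_[p]) ^ m)⁻¹ • (Z - (p : ℚ_[p]) ^ m • v - (p : ℚ_[p]) ^ m • w)) := by
      rw [smul_sub, smul_sub, smul_smul, smul_smul, inv_mul_cancel₀ hpm, one_smul, one_smul]
      abel
    rw [dist_eq_norm, e, norm_neg, norm_pk_inv]
    have hq := pow_pos (q_pos p) m
    have h3 : ‖Z - (p : ℚ_[p]) ^ m • v - (p : ℚ_[p]) ^ m • w‖ ≤ (p : ℝ)⁻¹ ^ m * (p : ℝ)⁻¹ ^ m := by
      refine h2.trans ?_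
      exact mul_le_mul (q_pow_anti p (by omega)) (hy.2.trans (q_pow_anti p (by omega)))
        (norm_nonneg _) hq.le
    calc ((p : ℝ)⁻¹ ^ m)⁻¹ * ‖Z - (p : ℚ_[p]) ^ m • v - (p : ℚ_[p]) ^ m • w‖ ≤
        ((p : ℝ)⁻¹ ^ m)⁻¹ * ((p : ℝ)⁻¹ ^ m * (p : ℝ)⁻¹ ^ m) :=
          mul_le_mul_of_nonneg_left h3 (inv_nonneg.2 hq.le)
      _ = (p : ℝ)⁻¹ ^ m := by rw [← mul_assoc, inv_mul_cancel₀ hq.ne', one_mul]
      _ ≤ (p : ℝ)⁻¹ ^ m0 := q_pow_anti p (by omega)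
      _ < ε := hm0

include h1 hs in
theorem lam_add {v w : A} (hv : v ∈ Lam p R U) (hw : w ∈ Lam p R U) : v + w ∈ Lam p R U := by
  have h2 : v + w ∈ closure (Lam p R U) :=
    map_mem_closure₂ (f := fun a b : A => a + b) continuous_add hv hw
      (fun a ha b hb => by
        obtain ⟨k, hk⟩ := ha
        obtain ⟨k', hk'⟩ := hb
        exact add_pre p h1 hs hk hk')
  rwa [Lam, closure_closure] at h2

include h1 hs in
theorem lam_neg {v : A} (hv : v ∈ Lam p R U) : -v ∈ Lam p R U := by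
  haveI : CompleteSpace A := FiniteDimensional.complete ℚ_[p] A
  refine map_mem_closure (f := fun a : A => -a) continuous_neg hv ?_
  rintro w ⟨k, x, hx, hX⟩
  have hx' := sm_inv p h1 hs hx
  refine ⟨k, x⁻¹, hx', ?_⟩
  have h2 := log_inv p (hs _ hx'.1) hX
  rw [smul_neg]
  exact h2

include hs in
theorem lam_sat {v : A} (hv : v ∈ Lam p R U) (hn : ‖v‖ ≤ (p : ℝ)⁻¹ ^ 3) :
    (p : ℚ_[p])⁻¹ • v ∈ Lam p R U := by
  unfold Lam at hv ⊢
  rw [Metric.mem_closure_iff] at hv ⊢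
  intro ε hε
  have hq := q_pos p
  have hq3 : 0 < (p : ℝ)⁻¹ ^ 3 := pow_pos hq 3
  obtain ⟨w, ⟨k, x, hx, hX⟩, hvw⟩ := hv (min ((p : ℝ)⁻¹ ^ 3) ((p : ℝ)⁻¹ * ε))
    (lt_min hq3 (mul_pos hq hε))
  rw [dist_eq_norm] at hvw
  have hw : ‖w‖ ≤ (p : ℝ)⁻¹ ^ 3 := by
    have e : w = v + -(v - w) := by abel
    rw [e]
    refine (norm_add_le_max' _ _).trans (max_le hn ?_)
    rw [norm_neg]
    exact (hvw.trans_le (min_le_left _ _)).le
  have h3 := pre_norm p (hs x hx.1) hX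
  refine ⟨(p : ℚ_[p])⁻¹ • w, ⟨k + 1, x, ⟨hx.1, ?_⟩, ?_⟩, ?_⟩
  · rw [← h3, show k + 1 + 2 = k + 3 from rfl, pow_add]
    exact mul_le_mul_of_nonneg_left hw (pow_pos hq k).le
  · rw [smul_smul, pow_succ, mul_assoc, mul_inv_cancel₀ (p_ne p), mul_one]
    exact hX
  · rw [dist_eq_norm, ← smul_sub]
    have h4 := norm_pk_inv p 1 (v - w)
    rw [pow_one, pow_one] at h4
    rw [h4]
    have h5 := hvw.trans_le (min_le_right _ _)
    calc ((p : ℝ)⁻¹)⁻¹ * ‖v - w‖ < ((p : ℝ)⁻¹)⁻¹ * ((p : ℝ)⁻¹ * ε) :=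
          mul_lt_mul_of_pos_left h5 (inv_pos.2 hq)
      _ = ε := by rw [← mul_assoc, inv_mul_cancel₀ hq.ne', one_mul]

end Pool.Agent.Helper37.Kr
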