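import Pool.Agent.Helper27.FM.Abs

/-!
# Project KRN (MP_6cbef8_nt), module LogEst: the logarithm is strictly differentiable

`A` is an ultrametric normed ring over `ℚ_p`; `logSeq p x k = p^(-k) ((1 + x)^(p^k) - 1)` (Helper27/FM/Log.lean, with `pow_sub_pow`,
`small_pow_iter`, `norm_logSeq_sub`, `exists_log`, `log_inj`).

PLAN. (1) `log_strict`: put `u = (1 + x)^(p^k) - 1`, `w = (1 + y)^(p^k) - 1`; by `small_pow_iter` (with `0` and with each other) `‖u‖, ‖w‖ ≤ p^(-k) p^(-(m+2))`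
and `‖u - w‖ = p^(-k) ‖x - y‖`. By `pow_sub_pow` with `ρ = p^(-k-m-2)`: `‖(1 + u)^p - (1 + w)^p - p (u - w)‖ ≤ ρ ‖u - w‖`; multiply by `p^(k+1)`:
`‖(logSeq x (k+1) - logSeq y (k+1)) - (logSeq x k - logSeq y k)‖ ≤ p^(-(m+1)) ‖x - y‖`. `logSeq x 0 = x`. By induction (ultrametric)
`‖logSeq x k - logSeq y k - (x - y)‖ ≤ p^(-(m+1)) ‖x - y‖` for all `k`; pass to the limit.
(2) `alog_iff`: `ALog ℚ_[p] p R g X` is `Tendsto (logSeq p (R g - 1)) atTop (𝓝 X)` up to `1 + (R g - 1) = R g`.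
(3) `log_norm`: `‖X - Y‖ = ‖R g - R h‖` from `norm_logSeq_sub`. `log_mul`: `R (g h) - R g = R g (R h - 1) = (R h - 1) + (R g - 1) (R h - 1)`;
by (1) for `g h, g`: `‖Z - X - (R (g h) - R g)‖ ≤ p^(-(m+1)) ‖R h - 1‖`, and for `h, 1`: `‖Y - (R h - 1)‖ ≤ p^(-(m+1)) ‖R h - 1‖`; `‖(R g - 1) (R h - 1)‖ ≤ p^(-(m+2)) ‖R h - 1‖`.
(4) `log_pow`: `R (g^p)^(p^k) = R g^(p^(k+1))`. `log_inv`: `((R g⁻¹)^N - 1) = - (R g⁻¹)^N ((R g)^N - 1)` and `(R g⁻¹)^(p^k) → 1` (`atendsto_one` for the logarithm of `g⁻¹`, which exists by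
`exists_log`: `‖R g⁻¹ - 1‖ ≤ p^(-2)` is a hypothesis).
-/

set_option autoImplicit false
open Filter Topology

namespace Pool.Agent.Helper37.Kr

open Pool.Agent.Helper27.FM

variable (p : ℕ) [hp : Fact p.Prime] {A : Type*} [NormedRing A] [IsUltrametricDist A]
  [NormedAlgebra ℚ_[p] A] {G : Type*} [Group G] {R : G →* A}

private lemma rho_pos : 0 < (p : ℝ)⁻¹ := by
  have := hp.out.pos
  positivity

private lemma rho_lt : (p : ℝ)⁻¹ < 1 := by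
  apply inv_lt_one_of_one_lt₀
  exact_mod_cast hp.out.one_lt

private lemma rho_le {m : ℕ} {t : ℝ} (h : t ≤ (p : ℝ)⁻¹ ^ (m + 2)) : t ≤ (p : ℝ)⁻¹ ^ 2 :=
  h.trans (pow_le_pow_of_le_one (rho_pos p).le (rho_lt p).le (by omega))

private lemma rho_pow_le (n : ℕ) : (p : ℝ)⁻¹ ^ n ≤ 1 :=
  pow_le_one₀ (rho_pos p).le (rho_lt p).le

private lemma logSeq_zero' (x : A) : logSeq p x 0 = x := by
  unfold logSeq
  rw [pow_zero, inv_one, one_smul, pow_zero, pow_one, add_sub_cancel_left]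

private lemma strict_iter {x y : A} {m : ℕ} (hx : ‖x‖ ≤ (p : ℝ)⁻¹ ^ (m + 2))
    (hy : ‖y‖ ≤ (p : ℝ)⁻¹ ^ (m + 2)) (k : ℕ) :
    ‖logSeq p x k - logSeq p y k - (x - y)‖ ≤ (p : ℝ)⁻¹ ^ (m + 1) * ‖x - y‖ := by
  have hp0 := rho_pos p
  have hpne : (p : ℚ_[p]) ≠ 0 := by exact_mod_cast hp.out.ne_zero
  induction k with
  | zero =>
    rw [logSeq_zero', logSeq_zero', sub_self, norm_zero]
    positivity
  | succ k ih =>
    have hx2 := rho_le p hx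
    have hy2 := rho_le p hy
    set u := (1 + x) ^ (p ^ k) - 1 with hu
    set w := (1 + y) ^ (p ^ k) - 1 with hw
    have hun : ‖u‖ ≤ (p : ℝ)⁻¹ ^ k * (p : ℝ)⁻¹ ^ (m + 2) := by
      have := small_pow_iter p hx2 (y := (0 : A)) (by rw [norm_zero]; positivity) k
      rw [add_zero, one_pow, sub_zero] at this
      rw [hu, this]
      gcongr
    have hwn : ‖w‖ ≤ (p : ℝ)⁻¹ ^ k * (p : ℝ)⁻¹ ^ (m + 2) := by
      have := small_pow_iter p hy2 (y := (0 : A)) (by rw [norm_zero]; positivity) k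
      rw [add_zero, one_pow, sub_zero] at this
      rw [hw, this]
      gcongr
    have huw : ‖u - w‖ = (p : ℝ)⁻¹ ^ k * ‖x - y‖ := by
      rw [hu, hw, sub_sub_sub_cancel_right]
      exact small_pow_iter p hx2 hy2 k
    have hle : (p : ℝ)⁻¹ ^ k * (p : ℝ)⁻¹ ^ (m + 2) ≤ 1 :=
      mul_le_one₀ (rho_pow_le p k) (by positivity) (rho_pow_le p _)
    have hD := pow_sub_pow hle hun hwn p
    have e1 : (1 + u) ^ p = (1 + x) ^ (p ^ (k + 1)) := by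
      rw [hu, add_sub_cancel, ← pow_mul, ← pow_succ]
    have e2 : (1 + w) ^ p = (1 + y) ^ (p ^ (k + 1)) := by
      rw [hw, add_sub_cancel, ← pow_mul, ← pow_succ]
    have e3 : (p : A) * (u - w) = (p : ℚ_[p]) • (u - w) := by
      rw [Algebra.smul_def, map_natCast]
    have e4 : ((p : ℚ_[p]) ^ (k + 1))⁻¹ * (p : ℚ_[p]) = ((p : ℚ_[p]) ^ k)⁻¹ := by
      rw [pow_succ]; field_simp
    have key : logSeq p x (k + 1) - logSeq p y (k + 1) - (logSeq p x k - logSeq p y k) =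
        ((p : ℚ_[p]) ^ (k + 1))⁻¹ • ((1 + u) ^ p - (1 + w) ^ p - (p : A) * (u - w)) := by
      rw [e1, e2, e3, smul_sub, smul_smul, e4]
      unfold logSeq
      rw [← hu, ← hw, ← smul_sub, ← smul_sub, sub_sub_sub_cancel_right]
    have hk : ‖logSeq p x (k + 1) - logSeq p y (k + 1) - (logSeq p x k - logSeq p y k)‖ ≤
        (p : ℝ)⁻¹ ^ (m + 1) * ‖x - y‖ := by
      rw [key, norm_smul, norm_inv, norm_pow, Padic.norm_p]
      calc ((p : ℝ)⁻¹ ^ (k + 1))⁻¹ * ‖(1 + u) ^ p - (1 + w) ^ p - (p : A) * (u - w)‖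
          ≤ ((p : ℝ)⁻¹ ^ (k + 1))⁻¹ * ((p : ℝ)⁻¹ ^ k * (p : ℝ)⁻¹ ^ (m + 2) * ‖u - w‖) := by
            gcongr
        _ = ((p : ℝ)⁻¹ ^ (k + 1))⁻¹ * ((p : ℝ)⁻¹ ^ (k + 1)) *
            ((p : ℝ)⁻¹ ^ k * ((p : ℝ)⁻¹ ^ (m + 1) * ‖x - y‖)) := by
            rw [huw]; ring
        _ = (p : ℝ)⁻¹ ^ k * ((p : ℝ)⁻¹ ^ (m + 1) * ‖x - y‖) := by
            rw [inv_mul_cancel₀ (by positivity), one_mul]
        _ ≤ 1 * ((p : ℝ)⁻¹ ^ (m + 1) * ‖x - y‖) := by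
            gcongr
            exact rho_pow_le p k
        _ = _ := one_mul _
    have e5 : logSeq p x (k + 1) - logSeq p y (k + 1) - (x - y) =
        (logSeq p x (k + 1) - logSeq p y (k + 1) - (logSeq p x k - logSeq p y k)) +
        (logSeq p x k - logSeq p y k - (x - y)) := by abel
    rw [e5]
    exact (norm_add_le_max' _ _).trans (max_le hk ih)

theorem log_strict {x y X Y : A} {m : ℕ} (hx : ‖x‖ ≤ (p : ℝ)⁻¹ ^ (m + 2))
    (hy : ‖y‖ ≤ (p : ℝ)⁻¹ ^ (m + 2)) (hX : Tendsto (logSeq p x) atTop (𝓝 X))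
    (hY : Tendsto (logSeq p y) atTop (𝓝 Y)) :
    ‖X - Y - (x - y)‖ ≤ (p : ℝ)⁻¹ ^ (m + 1) * ‖x - y‖ := by
  have h := ((hX.sub hY).sub_const (x - y)).norm
  exact le_of_tendsto h (Eventually.of_forall fun k => strict_iter p hx hy k)

theorem alog_iff {g : G} {X : A} :
    ALog ℚ_[p] p R g X ↔ Tendsto (logSeq p (R g - 1)) atTop (𝓝 X) := by
  have e : logSeq p (R g - 1) = fun m : ℕ => ((p : ℚ_[p]) ^ m)⁻¹ • (R g ^ (p ^ m) - 1) := by
    funext m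
    unfold logSeq
    rw [add_sub_cancel]
  rw [e]
  exact Iff.rfl

theorem log_norm {g h : G} {X Y : A} (hg : ‖R g - 1‖ ≤ (p : ℝ)⁻¹ ^ 2)
    (hh : ‖R h - 1‖ ≤ (p : ℝ)⁻¹ ^ 2) (hX : ALog ℚ_[p] p R g X) (hY : ALog ℚ_[p] p R h Y) :
    ‖X - Y‖ = ‖R g - R h‖ := by
  rw [alog_iff] at hX hY
  have h1 := (hX.sub hY).norm
  have h2 : (fun k => ‖logSeq p (R g - 1) k - logSeq p (R h - 1) k‖) =
      fun _ => ‖R g - R h‖ := by
    funext k
    rw [norm_logSeq_sub p hg hh k, sub_sub_sub_cancel_right]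
  rw [h2] at h1
  exact tendsto_nhds_unique h1 tendsto_const_nhds |>.symm ▸ rfl

theorem log_mul {g h : G} {X Y Z : A} {m : ℕ} (hg : ‖R g - 1‖ ≤ (p : ℝ)⁻¹ ^ (m + 2))
    (hh : ‖R h - 1‖ ≤ (p : ℝ)⁻¹ ^ (m + 2)) (hX : ALog ℚ_[p] p R g X) (hY : ALog ℚ_[p] p R h Y)
    (hZ : ALog ℚ_[p] p R (g * h) Z) :
    ‖Z - X - Y‖ ≤ (p : ℝ)⁻¹ ^ (m + 1) * ‖R h - 1‖ := by
  rw [alog_iff] at hX hY hZ
  have hp0 := rho_pos p
  have hm : ‖(R g - 1) * (R h - 1)‖ ≤ (p : ℝ)⁻¹ ^ (m + 2) * ‖R h - 1‖ := by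
    refine (norm_mul_le _ _).trans ?_
    gcongr
  have hm1 : ‖(R g - 1) * (R h - 1)‖ ≤ ‖R h - 1‖ := by
    refine hm.trans ?_
    calc (p : ℝ)⁻¹ ^ (m + 2) * ‖R h - 1‖ ≤ 1 * ‖R h - 1‖ := by
          gcongr
          exact rho_pow_le p _
      _ = _ := one_mul _
  have e1 : R (g * h) - 1 = (R g - 1) + ((R h - 1) + (R g - 1) * (R h - 1)) := by
    rw [map_mul]; noncomm_ring
  have hgh : ‖R (g * h) - 1‖ ≤ (p : ℝ)⁻¹ ^ (m + 2) := by
    rw [e1]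
    refine (norm_add_le_max' _ _).trans (max_le hg ((norm_add_le_max' _ _).trans (max_le hh ?_)))
    exact hm1.trans hh
  have h1 := log_strict p hgh hg hZ hX
  have h0 : Tendsto (logSeq p (0 : A)) atTop (𝓝 0) := by
    have e : logSeq p (0 : A) = fun _ => 0 := by
      funext k
      unfold logSeq
      rw [add_zero, one_pow, sub_self, smul_zero]
    rw [e]
    exact tendsto_const_nhds
  have h2 := log_strict p hh (y := (0 : A)) (m := m) (by rw [norm_zero]; positivity) hY h0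
  rw [sub_zero, sub_zero] at h2
  have e2 : R (g * h) - 1 - (R g - 1) = (R h - 1) + (R g - 1) * (R h - 1) := by
    rw [e1]; abel
  rw [e2] at h1
  have h3 : ‖(R h - 1) + (R g - 1) * (R h - 1)‖ ≤ ‖R h - 1‖ :=
    (norm_add_le_max' _ _).trans (max_le le_rfl hm1)
  have h4 : ‖Z - X - ((R h - 1) + (R g - 1) * (R h - 1))‖ ≤ (p : ℝ)⁻¹ ^ (m + 1) * ‖R h - 1‖ :=
    h1.trans (by gcongr)
  have h5 : ‖(R g - 1) * (R h - 1)‖ ≤ (p : ℝ)⁻¹ ^ (m + 1) * ‖R h - 1‖ := by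
    refine hm.trans ?_
    gcongr ?_ * _
    exact pow_le_pow_of_le_one hp0.le (rho_lt p).le (by omega)
  have e3 : Z - X - Y = (Z - X - ((R h - 1) + (R g - 1) * (R h - 1))) +
      (-(Y - (R h - 1)) + (R g - 1) * (R h - 1)) := by abel
  rw [e3]
  refine (norm_add_le_max' _ _).trans (max_le h4 ((norm_add_le_max' _ _).trans (max_le ?_ h5)))
  rw [norm_neg]
  exact h2

theorem log_pow {g : G} {X : A} (hX : ALog ℚ_[p] p R g X) :
    ALog ℚ_[p] p R (g ^ p) ((p : ℚ_[p]) • X) := by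
  unfold ALog at *
  have hpne : (p : ℚ_[p]) ≠ 0 := by exact_mod_cast hp.out.ne_zero
  have h1 := ((tendsto_add_atTop_iff_nat 1).2 hX).const_smul (p : ℚ_[p])
  refine h1.congr fun m => ?_
  rw [smul_smul, map_pow, ← pow_mul]
  have e1 : (p : ℚ_[p]) * ((p : ℚ_[p]) ^ (m + 1))⁻¹ = ((p : ℚ_[p]) ^ m)⁻¹ := by
    rw [pow_succ]; field_simp
  have e2 : p * p ^ m = p ^ (m + 1) := by rw [pow_succ, mul_comm]
  rw [e1, e2]

theorem log_inv [CompleteSpace A] {g : G} {X : A} (hg : ‖R g⁻¹ - 1‖ ≤ (p : ℝ)⁻¹ ^ 2)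
    (hX : ALog ℚ_[p] p R g X) : ALog ℚ_[p] p R g⁻¹ (-X) := by
  obtain ⟨Y, hY⟩ := exists_log p hg
  have hY' : ALog ℚ_[p] p R g⁻¹ Y := (alog_iff p).2 hY
  have h1 : Tendsto (fun n : ℕ => R g⁻¹ ^ (p ^ n)) atTop (𝓝 1) :=
    atendsto_one (E := ℚ_[p]) p hY'
  unfold ALog at hX ⊢
  have h2 := (h1.mul hX).neg
  rw [one_mul] at h2
  refine h2.congr fun n => ?_
  have e0 : (R g⁻¹ ^ (p ^ n)) * (R g ^ (p ^ n)) = 1 := by
    rw [← map_pow, ← map_pow, ← map_mul, inv_pow, inv_mul_cancel, map_one]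
  rw [mul_smul_comm, ← smul_neg, mul_sub, mul_one, e0, neg_sub]

end Pool.Agent.Helper37.Kr
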