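import Pool.Agent.Helper37.Kr.Fill

/-!
# Project KRN (MP_6cbef8_nt), module SpanLog: the closed subgroup theorem

PLAN. Let `Q` be the set of `z` with `p^N • z ∈ Lam` for some `N`. It contains the logarithms `z` of elements of `U` (`N = 0`, `Pre 0 z`), is closed under addition (common `N`: `p • v ∈ Lam` for
`v ∈ Lam`, since `Lam` is closed under addition: `p • v` is a multiple sum) and under multiplication by `c ∈ ℚ_p`: write `p^r c = u ∈ ℤ_p`; `u • v ∈ Lam` for `v ∈ Lam`, as `Lam` is a closed additive group and `u` is a limit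
of natural numbers (`PadicInt.denseRange_natCast`). So `Q` contains the span. For `z ∈ Q`: `p^N • z ∈ Lam`, so `Pre m (p^N • z)` by `fill_lam`: the logarithm of some `x ∈ U` is `p^m • p^N • z`.
-/

set_option autoImplicit false
open Filter Topology

namespace Pool.Agent.Helper37.Kr

open Pool.Agent.Helper27.FM

variable (p : ℕ) [hp : Fact p.Prime] {A : Type*} [NormedRing A] [IsUltrametricDist A]
  [NormedAlgebra ℚ_[p] A] [FiniteDimensional ℚ_[p] A]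
  {G : Type*} [Group G] {R : G →* A} {U : Subgroup G}

private theorem spanlog_nat (h1 : ‖(1 : A)‖ ≤ 1) (hs : ∀ x ∈ U, ‖R x - 1‖ ≤ (p : ℝ)⁻¹ ^ 2)
    {v : A} (hv : v ∈ Lam p R U) (n : ℕ) : ((n : ℚ_[p])) • v ∈ Lam p R U := by
  induction n with
  | zero =>
    have h := lam_add p h1 hs hv (lam_neg p h1 hs hv)
    rw [add_neg_cancel] at h
    simpa using h
  | succ n ih =>
    have h := lam_add p h1 hs ih hv
    push_cast
    rw [add_smul, one_smul]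
    exact h

private theorem spanlog_int (h1 : ‖(1 : A)‖ ≤ 1) (hs : ∀ x ∈ U, ‖R x - 1‖ ≤ (p : ℝ)⁻¹ ^ 2)
    {v : A} (hv : v ∈ Lam p R U) {c : ℚ_[p]} (hc : ‖c‖ ≤ 1) : c • v ∈ Lam p R U := by
  have hcl : IsClosed {u : ℤ_[p] | (u : ℚ_[p]) • v ∈ Lam p R U} := by
    have h2 : Continuous (fun u : ℤ_[p] => (u : ℚ_[p]) • v) :=
      continuous_subtype_val.smul continuous_const
    have h3 : IsClosed (Lam p R U) := isClosed_closure
    exact h3.preimage h2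
  have hall : ∀ u : ℤ_[p], u ∈ {u : ℤ_[p] | (u : ℚ_[p]) • v ∈ Lam p R U} := by
    intro u
    apply PadicInt.denseRange_natCast.induction_on (p := fun u : ℤ_[p] =>
      u ∈ {u : ℤ_[p] | (u : ℚ_[p]) • v ∈ Lam p R U}) u hcl
    intro n
    simp only [Set.mem_ofPred_eq, PadicInt.coe_natCast]
    exact spanlog_nat p h1 hs hv n
  exact hall ⟨c, hc⟩

private theorem spanlog_pow (h1 : ‖(1 : A)‖ ≤ 1) (hs : ∀ x ∈ U, ‖R x - 1‖ ≤ (p : ℝ)⁻¹ ^ 2)
    {v : A} (hv : v ∈ Lam p R U) (k : ℕ) : ((p : ℚ_[p]) ^ k) • v ∈ Lam p R U := by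
  apply spanlog_int p h1 hs hv
  rw [norm_pow, Padic.norm_p]
  have hp1 : (1 : ℝ) ≤ p := by exact_mod_cast hp.out.one_lt.le
  exact pow_le_one₀ (by positivity) (inv_le_one_of_one_le₀ hp1)

private theorem spanlog_exists_pow (c : ℚ_[p]) : ∃ r : ℕ, ‖(p : ℚ_[p]) ^ r * c‖ ≤ 1 := by
  have hp1 : (1 : ℝ) < p := by exact_mod_cast hp.out.one_lt
  obtain ⟨r, hr⟩ := pow_unbounded_of_one_lt ‖c‖ hp1
  refine ⟨r, ?_⟩
  rw [norm_mul, norm_pow, Padic.norm_p, inv_pow, inv_mul_le_iff₀ (by positivity), mul_one]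
  exact hr.le

private theorem spanlog_span (h1 : ‖(1 : A)‖ ≤ 1) (hs : ∀ x ∈ U, ‖R x - 1‖ ≤ (p : ℝ)⁻¹ ^ 2)
    {z : A} (hz : z ∈ ASp ℚ_[p] p R U) : ∃ N : ℕ, ((p : ℚ_[p]) ^ N) • z ∈ Lam p R U := by
  unfold ASp at hz
  induction hz using Submodule.span_induction with
  | mem z hz =>
    obtain ⟨x, hx, hxz⟩ := hz
    refine ⟨0, subset_closure ⟨0, x, ⟨hx, ?_⟩, ?_⟩⟩
    · simpa using hs x hx
    · simpa using hxz
  | zero =>
    refine ⟨0, subset_closure ⟨0, 1, ⟨U.one_mem, ?_⟩, ?_⟩⟩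
    · rw [map_one, sub_self, norm_zero]
      positivity
    · unfold ALog
      simp
  | add z w _ _ ih1 ih2 =>
    obtain ⟨N, hN⟩ := ih1
    obtain ⟨M, hM⟩ := ih2
    refine ⟨N + M, ?_⟩
    have h := lam_add p h1 hs (spanlog_pow p h1 hs hN M) (spanlog_pow p h1 hs hM N)
    rw [smul_smul, smul_smul, ← pow_add, ← pow_add, add_comm M N, ← smul_add] at h
    exact h
  | smul c z _ ih =>
    obtain ⟨N, hN⟩ := ih
    obtain ⟨r, hr⟩ := spanlog_exists_pow p c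
    refine ⟨N + r, ?_⟩
    have h := spanlog_int p h1 hs hN hr
    rw [smul_smul] at h
    rw [smul_smul]
    have e : (p : ℚ_[p]) ^ (N + r) * c = (p : ℚ_[p]) ^ r * c * (p : ℚ_[p]) ^ N := by
      rw [pow_add]
      ring
    rw [e]
    exact h

theorem exists_log_eq [TopologicalSpace G] [IsTopologicalGroup G] [CompactSpace G]
    (hR : Continuous R) (hU : IsOpen (U : Set G)) (h1 : ‖(1 : A)‖ ≤ 1)
    (hs : ∀ x ∈ U, ‖R x - 1‖ ≤ (p : ℝ)⁻¹ ^ 2) {z : A} (hz : z ∈ ASp ℚ_[p] p R U) :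
    ∃ N : ℕ, ∃ x ∈ U, ALog ℚ_[p] p R x ((p : ℚ_[p]) ^ N • z) := by
  obtain ⟨m, hm⟩ := fill_lam p hR hU h1 hs
  obtain ⟨N, hN⟩ := spanlog_span p h1 hs hz
  obtain ⟨x, ⟨hx, _⟩, hx2⟩ := hm _ hN
  refine ⟨m + N, x, hx, ?_⟩
  rw [smul_smul, ← pow_add] at hx2
  exact hx2

end Pool.Agent.Helper37.Kr
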